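import Mathlib

/-!
Binary codes invariant under the translations of `(ZMod p)^r`: Fourier analysis over a finite field
of characteristic two with a primitive `p`-th root of unity, descent, information sets.
-/

set_option autoImplicit false

open Finset Module

namespace Pool.Agent.Helper479_codes

/-! ### Descent to the prime field -/

section descent

variable {K : Type} [Field K] [Algebra (ZMod 2) K] {X : Type}

/-- the `K`-span of a binary space of functions -/
def kspan (K : Type) [Field K] [Algebra (ZMod 2) K] {X : Type}
    (W : Submodule (ZMod 2) (X → ZMod 2)) : Submodule K (X → K) :=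
  Submodule.span K {F | ∃ c ∈ W, F = fun x => algebraMap (ZMod 2) K (c x)}

lemma kspan_of (W : Submodule (ZMod 2) (X → ZMod 2)) {c : X → ZMod 2} (hc : c ∈ W) :
    (fun x => algebraMap (ZMod 2) K (c x)) ∈ kspan K W :=
  Submodule.subset_span ⟨c, hc, rfl⟩

/-- descent: apply a linear functional `K → ZMod 2` to the values -/
lemma descent (W : Submodule (ZMod 2) (X → ZMod 2)) {F : X → K} (hF : F ∈ kspan K W) :
    ∀ lam : K →ₗ[ZMod 2] ZMod 2, (fun x => lam (F x)) ∈ W := by
  unfold kspan at hF
  induction hF using Submodule.span_induction with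
  | mem F h =>
    obtain ⟨c, hc, rfl⟩ := h
    intro lam
    have : (fun x => lam (algebraMap (ZMod 2) K (c x))) = (lam 1) • c := by
      funext x
      rw [Algebra.algebraMap_eq_smul_one, map_smul]
      simp [mul_comm]
    rw [this]
    exact W.smul_mem _ hc
  | zero =>
    intro lam
    have : (fun x : X => lam ((0 : X → K) x)) = 0 := by
      funext x; simp
    rw [this]; exact W.zero_mem
  | add F G _ _ h1 h2 =>
    intro lam
    have : (fun x : X => lam ((F + G) x)) = (fun x => lam (F x)) + fun x => lam (G x) := by
      funext x; simp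
    rw [this]; exact W.add_mem (h1 lam) (h2 lam)
  | smul k F _ h1 =>
    intro lam
    exact h1 (lam ∘ₗ (LinearMap.mulLeft (ZMod 2) k))

lemma exists_functional {k : K} (hk : k ≠ 0) : ∃ lam : K →ₗ[ZMod 2] ZMod 2, lam k ≠ 0 := by
  by_contra h
  push Not at h
  exact hk ((Module.forall_dual_apply_eq_zero_iff (ZMod 2) k).1 h)

/-- a nonzero function in the `K`-span gives a nonzero codeword with smaller support -/
lemma exists_codeword (W : Submodule (ZMod 2) (X → ZMod 2)) {F : X → K} (hF : F ∈ kspan K W)
    {x0 : X} (h0 : F x0 ≠ 0) : ∃ c ∈ W, c x0 ≠ 0 ∧ ∀ x, c x ≠ 0 → F x ≠ 0 := by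
  obtain ⟨lam, hlam⟩ := exists_functional h0
  refine ⟨_, descent W hF lam, hlam, fun x hx h => hx ?_⟩
  simp [h]

end descent

/-! ### Information sets -/

section info

variable {X : Type} [Fintype X] [DecidableEq X]

/-- every binary space of functions has an information set -/
lemma exists_info (W : Submodule (ZMod 2) (X → ZMod 2)) :
    ∃ I : Finset X, (∀ w ∈ W, (∀ i ∈ I, w i = 0) → w = 0) ∧ I.card = finrank (ZMod 2) W := by
  classical
  let P : Finset (Finset X) := univ.filter fun I => ∀ w ∈ W, (∀ i ∈ I, w i = 0) → w = 0
  have hP : P.Nonempty := ⟨univ, by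
    simp only [P, mem_filter, mem_univ, true_and]
    intro w _ h
    funext i
    exact h i trivial⟩
  obtain ⟨I, hI, hmin⟩ := P.exists_min_image Finset.card hP
  simp only [P, mem_filter, mem_univ, true_and] at hI
  refine ⟨I, hI, ?_⟩
  apply le_antisymm
  · -- the minimal set gives independent elements
    have h1 : ∀ i : I, ∃ w : W, (∀ j ∈ I, j ≠ (i : X) → (w : X → ZMod 2) j = 0) ∧
        (w : X → ZMod 2) i ≠ 0 := by
      intro i
      by_contra hcon
      push Not at hcon
      have h2 : I.erase i ∈ P := by
        simp only [P, mem_filter, mem_univ, true_and]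
        intro w hw h
        apply hI w hw
        have h3 : ∀ j ∈ I, j ≠ (i : X) → w j = 0 := fun j hj hji =>
          h j (mem_erase.2 ⟨hji, hj⟩)
        intro j hj
        by_cases hji : j = i
        · rw [hji]; exact hcon ⟨w, hw⟩ h3
        · exact h3 j hj hji
      have h4 := hmin _ h2
      rw [card_erase_of_mem i.2] at h4
      have : 0 < I.card := card_pos.2 ⟨i, i.2⟩
      omega
    choose u hu1 hu2 using h1
    have hli : LinearIndependent (ZMod 2) u := by
      rw [Fintype.linearIndependent_iff]
      intro g hg i
      have h5 : (∑ j, g j • (u j : X → ZMod 2)) (i : X) = 0 := by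
        have := congrArg (fun w : W => (w : X → ZMod 2) i) hg
        simpa using this
      rw [Finset.sum_apply, Finset.sum_eq_single i] at h5
      · simp only [Pi.smul_apply, smul_eq_mul, mul_eq_zero] at h5
        exact h5.resolve_right (hu2 i)
      · intro j _ hj
        have : (u j : X → ZMod 2) i = 0 :=
          hu1 j i i.2 (fun h => hj (Subtype.ext h.symm))
        simp [this]
      · simp
    have := hli.fintype_card_le_finrank
    simpa using this
  · -- restriction to `I` is injective
    let ρ : W →ₗ[ZMod 2] (I → ZMod 2) :=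
      { toFun := fun w i => (w : X → ZMod 2) i
        map_add' := fun _ _ => rfl
        map_smul' := fun _ _ => rfl }
    have hρ : Function.Injective ρ := by
      rw [injective_iff_map_eq_zero]
      intro w hw
      apply Subtype.ext
      exact hI w w.2 fun i hi => congrFun hw ⟨i, hi⟩
    have := LinearMap.finrank_le_finrank_of_injective hρ
    simpa using this

variable {K : Type} [Field K] [Algebra (ZMod 2) K]

lemma kspan_info (W : Submodule (ZMod 2) (X → ZMod 2)) {I : Finset X}
    (hI : ∀ w ∈ W, (∀ i ∈ I, w i = 0) → w = 0) {F : X → K} (hF : F ∈ kspan K W)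
    (h0 : ∀ i ∈ I, F i = 0) : F = 0 := by
  by_contra hne
  obtain ⟨x, hx⟩ := Function.ne_iff.1 hne
  obtain ⟨c, hc, hcx, hsupp⟩ := exists_codeword W hF hx
  have : c = 0 := hI c hc fun i hi => by
    by_contra h
    exact hsupp i h (h0 i hi)
  exact hcx (by rw [this]; rfl)

end info

end Pool.Agent.Helper479_codes
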