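import Mathlib

/-!
The binary entropy and the number of parity checks.
-/

set_option autoImplicit false

namespace Pool.Agent.Helper479_codes

/-- the binary entropy function (base two) -/
noncomputable def H2 (x : ℝ) : ℝ := -x * Real.logb 2 x - (1 - x) * Real.logb 2 (1 - x)

lemma two_rpow_H2 {δ : ℝ} (h0 : 0 < δ) (h1 : δ < 1 / 2) :
    (1 + δ / (1 - δ)) * (δ / (1 - δ)) ^ (-δ) = 2 ^ H2 δ := by
  have h2 : 0 < 1 - δ := by linarith
  have e1 : 1 + δ / (1 - δ) = (1 - δ) ^ (-1 : ℝ) := by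
    rw [Real.rpow_neg_one]; field_simp; ring
  have e2 : (2 : ℝ) ^ H2 δ = δ ^ (-δ) * (1 - δ) ^ (-(1 - δ)) := by
    unfold H2
    have l1 : δ = 2 ^ Real.logb 2 δ := (Real.rpow_logb (by norm_num) (by norm_num) h0).symm
    have l2 : 1 - δ = 2 ^ Real.logb 2 (1 - δ) :=
      (Real.rpow_logb (by norm_num) (by norm_num) h2).symm
    have m1 : δ ^ (-δ) = 2 ^ (Real.logb 2 δ * (-δ)) := by
      rw [Real.rpow_mul (by norm_num), ← l1]
    have m2 : (1 - δ) ^ (-(1 - δ)) = 2 ^ (Real.logb 2 (1 - δ) * (-(1 - δ))) := by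
      rw [Real.rpow_mul (by norm_num), ← l2]
    rw [m1, m2, ← Real.rpow_add (by norm_num)]
    congr 1
    ring
  rw [e1, e2, Real.div_rpow h0.le h2.le, div_eq_mul_inv, ← Real.rpow_neg h2.le]
  have e3 : (1 - δ) ^ (-1 : ℝ) * (δ ^ (-δ) * (1 - δ) ^ (- -δ)) =
      δ ^ (-δ) * ((1 - δ) ^ (-1 : ℝ) * (1 - δ) ^ (- -δ)) := by ring
  rw [e3, ← Real.rpow_add h2]
  congr 2
  ring

lemma H2_nonneg {δ : ℝ} (h0 : 0 < δ) (h1 : δ < 1 / 2) : 0 ≤ H2 δ := by
  unfold H2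
  have h2 : 0 < 1 - δ := by linarith
  have a1 : Real.logb 2 δ ≤ 0 := Real.logb_nonpos (by norm_num) h0.le (by linarith)
  have a2 : Real.logb 2 (1 - δ) ≤ 0 := Real.logb_nonpos (by norm_num) h2.le (by linarith)
  nlinarith

/-- the number of parity checks -/
lemma exists_k {δ : ℝ} (h0 : 0 < δ) (h1 : δ < 1 / 2) (l : ℕ) {N : ℝ} (hN : 1 ≤ N) :
    ∃ k : ℕ, 2 * N * ((1 + δ / (1 - δ)) * (δ / (1 - δ)) ^ (-δ)) ^ l ≤ 2 ^ k ∧
      (k : ℝ) ≤ l * H2 δ + Real.logb 2 N + 2 := by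
  have hH := H2_nonneg h0 h1
  have hlog : 0 ≤ Real.logb 2 N := Real.logb_nonneg (by norm_num) hN
  refine ⟨⌈l * H2 δ + Real.logb 2 N + 1⌉₊, ?_, ?_⟩
  · rw [two_rpow_H2 h0 h1]
    have e1 : 2 * N * (2 ^ H2 δ) ^ l = (2 : ℝ) ^ (l * H2 δ + Real.logb 2 N + 1) := by
      rw [Real.rpow_add (by norm_num), Real.rpow_add (by norm_num), Real.rpow_one,
        Real.rpow_logb (by norm_num) (by norm_num) (by linarith), mul_comm (l : ℝ),
        Real.rpow_mul (by norm_num), Real.rpow_natCast]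
      ring
    rw [e1, ← Real.rpow_natCast]
    exact Real.rpow_le_rpow_of_exponent_le (by norm_num) (Nat.le_ceil _)
  · have := Nat.ceil_lt_add_one (a := l * H2 δ + Real.logb 2 N + 1) (by positivity)
    linarith

end Pool.Agent.Helper479_codes
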