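import Pool.Agent.Helper479_codes.Basic

/-!
Fourier analysis on `(ZMod p)^r` with values in a field of characteristic two.
-/

set_option autoImplicit false

open Finset Module Matrix

namespace Pool.Agent.Helper479_codes

/-- a finite field of characteristic two with a nontrivial character of `ZMod p` -/
structure Data (p : ℕ) where
  K : Type
  [field : Field K]
  [fin : Fintype K]
  [dec : DecidableEq K]
  [alg : Algebra (ZMod 2) K]
  ψ : AddChar (ZMod p) K
  prim : ψ.IsPrimitive

attribute [instance] Data.field Data.fin Data.dec Data.alg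

lemma exists_data (p : ℕ) [Fact p.Prime] (hp : p ≠ 2) : Nonempty (Data p) := by
  classical
  have hpp : p.Prime := Fact.out
  -- a finite field with `2 ^ n` elements, `p` divides `2 ^ n - 1`
  have hcop : Nat.Coprime 2 p := (Nat.coprime_primes Nat.prime_two hpp).2 (Ne.symm hp)
  obtain ⟨n, hn0, hn⟩ : ∃ n : ℕ, n ≠ 0 ∧ p ∣ 2 ^ n - 1 := by
    refine ⟨p - 1, by have := hpp.two_le; omega, ?_⟩
    have h := Nat.ModEq.pow_totient hcop
    rw [Nat.totient_prime hpp] at h
    exact (Nat.modEq_iff_dvd' (Nat.one_le_two_pow)).1 h.symm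
  let K := GaloisField 2 n
  have : Fintype K := Fintype.ofFinite K
  have hcard : Fintype.card K = 2 ^ n := by
    rw [← Nat.card_eq_fintype_card]; exact GaloisField.card 2 n hn0
  have hunits : Fintype.card Kˣ = 2 ^ n - 1 := by
    rw [Fintype.card_units, hcard]
  obtain ⟨u, hu⟩ : ∃ u : Kˣ, orderOf u = p := by
    apply exists_prime_orderOf_dvd_card p
    rw [hunits]; exact hn
  have hζ : IsPrimitiveRoot (u : K) p := by
    rw [← hu]
    exact (IsPrimitiveRoot.orderOf u).map_of_injective (f := Units.coeHom K) Units.val_injective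
  have : NeZero p := ⟨hpp.ne_zero⟩
  exact ⟨{ K := K, ψ := AddChar.zmodChar p hζ.pow_eq_one,
           prim := AddChar.zmodChar_primitive_of_primitive_root p hζ }⟩

section

variable {p : ℕ} [hp : Fact p.Prime] (D : Data p) {r : ℕ}

/-- the character with frequency `a` -/
def ch (a x : Fin r → ZMod p) : D.K := D.ψ (a ⬝ᵥ x)

lemma ch_add_left (a b x : Fin r → ZMod p) : ch D (a + b) x = ch D a x * ch D b x := by
  unfold ch; rw [add_dotProduct, AddChar.map_add_eq_mul]

lemma ch_add_right (a x y : Fin r → ZMod p) : ch D a (x + y) = ch D a x * ch D a y := by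
  unfold ch; rw [dotProduct_add, AddChar.map_add_eq_mul]

lemma ch_zero_right (a : Fin r → ZMod p) : ch D a 0 = 1 := by
  unfold ch; rw [dotProduct_zero, AddChar.map_zero_eq_one]

lemma char_two : (2 : D.K) = 0 := by
  have h1 : algebraMap (ZMod 2) D.K (2 : ZMod 2) = (2 : D.K) := map_ofNat _ 2
  rw [← h1]
  have h2 : (2 : ZMod 2) = 0 := by decide
  rw [h2, map_zero]

lemma add_self_eq (k : D.K) : k + k = 0 := by
  rw [← two_mul, char_two, zero_mul]

lemma p_cast (hp2 : p ≠ 2) : (p : D.K) = 1 := by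
  have hpp : p.Prime := Fact.out
  obtain ⟨m, hm⟩ := hpp.odd_of_ne_two hp2
  have h : ((p : ℕ) : D.K) = ((2 * m + 1 : ℕ) : D.K) := congrArg _ hm
  rw [h]; push_cast; rw [char_two]; ring

lemma map_sum_prod {ι : Type} (φ : AddChar (ZMod p) D.K) (s : Finset ι) (f : ι → ZMod p) :
    φ (∑ i ∈ s, f i) = ∏ i ∈ s, φ (f i) := by
  classical
  induction s using Finset.induction_on with
  | empty => simp
  | insert a s ha ih => rw [sum_insert ha, prod_insert ha, AddChar.map_add_eq_mul, ih]

lemma sum_ch (hp2 : p ≠ 2) (x : Fin r → ZMod p) :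
    ∑ a : Fin r → ZMod p, ch D a x = if x = 0 then 1 else 0 := by
  classical
  have h1 : ∀ a : Fin r → ZMod p, ch D a x = ∏ i, D.ψ (a i * x i) := by
    intro a
    unfold ch dotProduct
    exact map_sum_prod D D.ψ univ (fun i => a i * x i)
  simp_rw [h1]
  have h2 := Fintype.prod_sum (fun (i : Fin r) (t : ZMod p) => D.ψ (t * x i))
  rw [← h2]
  have h3 : ∀ i, ∑ t : ZMod p, D.ψ (t * x i) = if x i = 0 then 1 else 0 := by
    intro i
    rw [AddChar.sum_mulShift (x i) D.prim]
    by_cases h : x i = 0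
    · simp [h, p_cast D hp2]
    · simp [h]
  simp_rw [h3]
  by_cases hx : x = 0
  · simp [hx]
  · rw [if_neg hx]
    obtain ⟨i, hi⟩ := Function.ne_iff.1 hx
    apply Finset.prod_eq_zero (mem_univ i)
    simp only [Pi.zero_apply] at hi
    simp [hi]

/-- the Fourier transform -/
def hat (F : (Fin r → ZMod p) → D.K) (a : Fin r → ZMod p) : D.K := ∑ y, ch D (-a) y * F y

lemma hat_inv (hp2 : p ≠ 2) (F : (Fin r → ZMod p) → D.K) (x : Fin r → ZMod p) :
    ∑ a, ch D a x * hat D F a = F x := by
  unfold hat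
  have h1 : ∀ a : Fin r → ZMod p, ch D a x * ∑ y, ch D (-a) y * F y =
      ∑ y, ch D a (x - y) * F y := by
    intro a
    rw [mul_sum]
    apply sum_congr rfl
    intro y _
    rw [← mul_assoc]
    congr 1
    unfold ch
    rw [← AddChar.map_add_eq_mul]
    congr 1
    rw [dotProduct_sub, neg_dotProduct, sub_eq_add_neg]
  simp_rw [h1]
  rw [sum_comm]
  simp_rw [← sum_mul]
  simp_rw [sum_ch D hp2]
  rw [Finset.sum_eq_single x]
  · simp
  · intro y _ hy
    rw [if_neg (sub_ne_zero.2 (Ne.symm hy)), zero_mul]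
  · simp

lemma hat_eq_zero (hp2 : p ≠ 2) (F : (Fin r → ZMod p) → D.K) (h : ∀ a, hat D F a = 0) :
    F = 0 := by
  funext x
  rw [← hat_inv D hp2 F x]
  simp [h]

lemma hat_translate (F : (Fin r → ZMod p) → D.K) (a x : Fin r → ZMod p) :
    ∑ y, ch D (-a) y * F (x + y) = ch D a x * hat D F a := by
  unfold hat
  rw [mul_sum]
  rw [← Equiv.sum_comp (Equiv.addLeft x) (fun y => ch D a x * (ch D (-a) y * F y))]
  apply sum_congr rfl
  intro y _
  simp only [Equiv.coe_addLeft]
  rw [← mul_assoc]
  congr 1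
  unfold ch
  rw [← AddChar.map_add_eq_mul]
  congr 1
  rw [dotProduct_add, neg_dotProduct, neg_dotProduct]
  ring

end

end Pool.Agent.Helper479_codes
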