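import Pool.Agent.Helper479_codes.Upper

/-!
Weights in translation invariant spaces: the generating function of the weights.
-/

set_option autoImplicit false

open Finset Module Matrix

namespace Pool.Agent.Helper479_codes

section gen

variable {V : Type} [Fintype V] [DecidableEq V] [AddCommGroup V]

/-- The sum of `μ ^ (weight)` over all binary functions on `I`. -/
lemma sum_all (I : Finset V) (μ : ℝ) :
    ∑ φ : I → ZMod 2, μ ^ (univ.filter fun i => φ i ≠ 0).card = (1 + μ) ^ I.card := by
  classical
  have h1 : ∀ φ : I → ZMod 2, μ ^ (univ.filter fun i => φ i ≠ 0).card =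
      ∏ i, (if φ i ≠ 0 then μ else 1) := by
    intro φ
    rw [prod_ite, prod_const, prod_const_one, mul_one]
  simp_rw [h1]
  have h2 := Fintype.prod_sum (fun (_ : I) (t : ZMod 2) => if t ≠ 0 then μ else 1)
  rw [← h2]
  have h3 : ∑ t : ZMod 2, (if t ≠ 0 then μ else 1) = 1 + μ := by
    have : (univ : Finset (ZMod 2)) = {0, 1} := by decide
    rw [this, sum_pair (by decide)]
    simp
  simp_rw [h3]
  rw [prod_const, card_univ, Fintype.card_coe]

/-- generating function of the weights in a translation invariant space of dimension `d` -/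
lemma gen (W : Submodule (ZMod 2) (V → ZMod 2))
    (hW : ∀ w ∈ W, ∀ y : V, (fun x => w (x + y)) ∈ W) {μ : ℝ} (h0 : 0 < μ)
    [DecidablePred (· ∈ W)] :
    ∑ w : V → ZMod 2, (if w ∈ W then
      μ ^ ((finrank (ZMod 2) W : ℝ) / Fintype.card V * hammingNorm w) else 0) ≤
      (1 + μ) ^ (finrank (ZMod 2) W) := by
  classical
  obtain ⟨I, hI, hcard⟩ := exists_info W
  set d := finrank (ZMod 2) W with hd
  have hN : (0 : ℝ) < Fintype.card V := by exact_mod_cast Fintype.card_pos
  -- number of ones of `w` in `I + y`
  let n : (V → ZMod 2) → V → ℕ := fun w y => (I.filter fun i => w (i + y) ≠ 0).card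
  have hsum : ∀ w : V → ZMod 2, ∑ y, n w y = d * hammingNorm w := by
    intro w
    have e1 : ∀ y, n w y = ∑ i ∈ I, if w (i + y) ≠ 0 then 1 else 0 := by
      intro y
      simp only [n, card_filter]
    simp_rw [e1]
    rw [sum_comm]
    have e2 : ∀ i ∈ I, ∑ y, (if w (i + y) ≠ 0 then 1 else 0) = hammingNorm w := by
      intro i _
      have h : ∑ y, (if w (i + y) ≠ 0 then 1 else 0) = ∑ y, (if w y ≠ 0 then 1 else 0) :=
        Fintype.sum_equiv (Equiv.addLeft i) _ _ (fun y => rfl)
      calc _ = ∑ y, (if w y ≠ 0 then 1 else 0) := h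
        _ = hammingNorm w := by simp [hammingNorm, card_filter]
    rw [sum_congr rfl e2, sum_const, smul_eq_mul, hcard]
  -- Jensen
  have hjensen : ∀ w : V → ZMod 2, μ ^ ((d : ℝ) / Fintype.card V * hammingNorm w) ≤
      ∑ y, (1 / (Fintype.card V : ℝ)) * μ ^ (n w y) := by
    intro w
    have hconv := convexOn_exp.map_sum_le (t := (univ : Finset V))
      (w := fun _ => 1 / (Fintype.card V : ℝ)) (p := fun y => Real.log μ * (n w y : ℝ))
      (fun _ _ => by positivity)
      (by rw [sum_const, card_univ, nsmul_eq_mul]; field_simp)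
      (fun _ _ => Set.mem_univ _)
    simp only [smul_eq_mul] at hconv
    have e1 : ∑ y, 1 / (Fintype.card V : ℝ) * (Real.log μ * (n w y : ℝ)) =
        Real.log μ * ((d : ℝ) / Fintype.card V * hammingNorm w) := by
      have : ∑ y, (n w y : ℝ) = d * hammingNorm w := by exact_mod_cast hsum w
      rw [← mul_sum, ← mul_sum, this]
      ring
    rw [e1, ← Real.rpow_def_of_pos h0] at hconv
    refine hconv.trans (le_of_eq ?_)
    apply sum_congr rfl
    intro y _
    rw [← Real.rpow_def_of_pos h0, Real.rpow_natCast]
  -- sum over the words of `W`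
  have hy : ∀ y : V, ∑ w : V → ZMod 2, (if w ∈ W then μ ^ (n w y) else 0) ≤ (1 + μ) ^ d := by
    intro y
    rw [← sum_filter]
    let g : (V → ZMod 2) → (I → ZMod 2) := fun w i => w (i + y)
    have hg : Set.InjOn g (univ.filter fun w => w ∈ W : Finset (V → ZMod 2)) := by
      intro w hw w' hw' h
      simp only [coe_filter, mem_univ, true_and, Set.mem_ofPred_eq] at hw hw'
      have h2 : (fun x => (w - w') (x + y)) ∈ W := hW _ (W.sub_mem hw hw') y
      have h3 : (fun x => (w - w') (x + y)) = 0 := hI _ h2 fun i hi => by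
        have := congrFun h ⟨i, hi⟩
        simp only [g] at this
        simp [this]
      have h4 : w - w' = 0 := by
        funext x
        have := congrFun h3 (x - y)
        simpa using this
      exact sub_eq_zero.1 h4
    have h5 : ∑ w ∈ univ.filter (fun w => w ∈ W), μ ^ (n w y) =
        ∑ φ ∈ (univ.filter fun w => w ∈ W).image g, μ ^ (univ.filter fun i => φ i ≠ 0).card := by
      rw [sum_image hg]
      apply sum_congr rfl
      intro w _
      congr 1
      simp only [n, g]
      rw [← card_map (Function.Embedding.subtype _)]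
      congr 1
      ext i
      simp only [mem_filter, mem_map, mem_univ, true_and, Function.Embedding.coe_subtype,
        Subtype.exists, exists_and_right, exists_eq_right]
      constructor
      · rintro ⟨hi, h⟩; exact ⟨hi, h⟩
      · rintro ⟨hi, h⟩; exact ⟨hi, h⟩
    rw [h5]
    calc _ ≤ ∑ φ : I → ZMod 2, μ ^ (univ.filter fun i => φ i ≠ 0).card :=
          sum_le_sum_of_subset_of_nonneg (subset_univ _) fun _ _ _ => by positivity
      _ = (1 + μ) ^ d := by rw [sum_all, hcard]
  calc ∑ w : V → ZMod 2, (if w ∈ W then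
        μ ^ ((d : ℝ) / Fintype.card V * hammingNorm w) else 0)
      ≤ ∑ w : V → ZMod 2, ∑ y, (1 / (Fintype.card V : ℝ)) *
          (if w ∈ W then μ ^ (n w y) else 0) := by
        apply sum_le_sum
        intro w _
        split_ifs with h
        · exact hjensen w
        · simp
    _ = ∑ y : V, (1 / (Fintype.card V : ℝ)) * ∑ w : V → ZMod 2,
          (if w ∈ W then μ ^ (n w y) else 0) := by
        rw [sum_comm]
        simp_rw [mul_sum]
    _ ≤ ∑ y : V, (1 / (Fintype.card V : ℝ)) * (1 + μ) ^ d := by
        apply sum_le_sum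
        intro y _
        exact mul_le_mul_of_nonneg_left (hy y) (by positivity)
    _ = (1 + μ) ^ d := by
        rw [sum_const, card_univ, nsmul_eq_mul]
        field_simp

end gen

end Pool.Agent.Helper479_codes
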