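import Pool.Agent.Helper479_codes.Lower1

/-!
Spaces of binary functions with a given spectrum; the rank of the correlation map.
-/

set_option autoImplicit false

open Finset Module Matrix

namespace Pool.Agent.Helper479_codes

section

variable {X : Type} [Fintype X] [DecidableEq X]

/-- a basis dual to an information set -/
lemma exists_dual (W : Submodule (ZMod 2) (X → ZMod 2)) {I : Finset X}
    (hI : ∀ w ∈ W, (∀ i ∈ I, w i = 0) → w = 0) (hcard : I.card = finrank (ZMod 2) W) :
    ∃ u : I → (X → ZMod 2), (∀ i, u i ∈ W) ∧ ∀ i j : I, u i j = if i = j then 1 else 0 := by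
  classical
  let ρ : W →ₗ[ZMod 2] (I → ZMod 2) :=
    { toFun := fun w i => (w : X → ZMod 2) i
      map_add' := fun _ _ => rfl
      map_smul' := fun _ _ => rfl }
  have hρ : Function.Injective ρ := by
    rw [injective_iff_map_eq_zero]
    intro w hw
    apply Subtype.ext
    exact hI w w.2 fun i hi => congrFun hw ⟨i, hi⟩
  have hfr : finrank (ZMod 2) W = finrank (ZMod 2) (I → ZMod 2) := by
    rw [← hcard]; simp
  have hsurj : Function.Surjective ρ :=
    (LinearMap.injective_iff_surjective_of_finrank_eq_finrank hfr).1 hρ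
  choose v hv using hsurj
  refine ⟨fun i => (v (fun j => if i = j then 1 else 0) : X → ZMod 2), fun i => (v _).2, ?_⟩
  intro i j
  have := congrFun (hv (fun j => if i = j then 1 else 0)) j
  exact this

end

variable {p : ℕ} [hp : Fact p.Prime] (D : Data p) {r l : ℕ}

lemma hat_emb_add (g h : (Fin r → ZMod p) → ZMod 2) (a : Fin r → ZMod p) :
    hat D (emb D (g + h)) a = hat D (emb D g) a + hat D (emb D h) a := by
  simp only [hat, emb, Pi.add_apply, map_add, mul_add, sum_add_distrib]

lemma hat_emb_smul (t : ZMod 2) (g : (Fin r → ZMod p) → ZMod 2) (a : Fin r → ZMod p) :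
    hat D (emb D (t • g)) a = algebraMap (ZMod 2) D.K t * hat D (emb D g) a := by
  simp only [hat, emb, Pi.smul_apply, smul_eq_mul, map_mul, mul_sum]
  apply sum_congr rfl
  intro y _
  ring

/-- binary functions with spectrum in `T` -/
def spec (T : Finset (Fin r → ZMod p)) : Submodule (ZMod 2) ((Fin r → ZMod p) → ZMod 2) where
  carrier := {g | ∀ a ∉ T, hat D (emb D g) a = 0}
  add_mem' := by
    intro g h hg hh a ha
    rw [hat_emb_add, hg a ha, hh a ha, add_zero]
  zero_mem' := by
    intro a _
    simp [hat, emb]
  smul_mem' := by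
    intro t g hg a ha
    rw [hat_emb_smul, hg a ha, mul_zero]

lemma mem_spec (T : Finset (Fin r → ZMod p)) (g : (Fin r → ZMod p) → ZMod 2) :
    g ∈ spec D T ↔ ∀ a ∉ T, hat D (emb D g) a = 0 := Iff.rfl

lemma spec_translate (T : Finset (Fin r → ZMod p)) :
    ∀ w ∈ spec D T, ∀ y : Fin r → ZMod p, (fun x => w (x + y)) ∈ spec D T := by
  intro w hw y a ha
  have h := hat_translate D (emb D w) a y
  rw [hw a ha, mul_zero] at h
  rw [← h]
  unfold hat
  apply sum_congr rfl
  intro z _
  simp only [emb]
  rw [add_comm z y]

lemma spec_finrank (hp2 : p ≠ 2) (T : Finset (Fin r → ZMod p)) :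
    finrank (ZMod 2) (spec D T) ≤ T.card := by
  classical
  obtain ⟨I, hI, hcard⟩ := exists_info (spec D T)
  obtain ⟨u, hu1, hu2⟩ := exists_dual (spec D T) hI hcard
  let Θ : (I → D.K) →ₗ[D.K] (T → D.K) :=
    { toFun := fun k a => ∑ i, k i * hat D (emb D (u i)) a
      map_add' := by
        intro k k'
        funext a
        simp only [Pi.add_apply, add_mul, sum_add_distrib]
      map_smul' := by
        intro c k
        funext a
        simp only [Pi.smul_apply, smul_eq_mul, RingHom.id_apply, mul_sum, mul_assoc] }
  have hΘ : Function.Injective Θ := by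
    rw [injective_iff_map_eq_zero]
    intro k hk
    have h1 : (fun x => ∑ i, k i * emb D (u i) x) = 0 := by
      apply hat_eq_zero D hp2
      intro a
      have h2 : hat D (fun x => ∑ i, k i * emb D (u i) x) a =
          ∑ i, k i * hat D (emb D (u i)) a := by
        simp only [hat, mul_sum]
        rw [sum_comm]
        apply sum_congr rfl
        intro i _
        apply sum_congr rfl
        intro y _
        ring
      rw [h2]
      by_cases ha : a ∈ T
      · exact congrFun hk ⟨a, ha⟩
      · apply sum_eq_zero
        intro i _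
        rw [hu1 i a ha, mul_zero]
    funext j
    have h3 := congrFun h1 (j : Fin r → ZMod p)
    simp only [Pi.zero_apply] at h3
    rw [Finset.sum_eq_single j] at h3
    · simp only [emb, hu2] at h3
      simpa using h3
    · intro i _ hij
      simp only [emb, hu2, if_neg hij, map_zero, mul_zero]
    · simp
  have := LinearMap.finrank_le_finrank_of_injective hΘ
  rw [← hcard]
  simpa using this

/-! ### The correlation map -/

/-- the correlation of `f` with `h` -/
def corr (f : Fin l × (Fin r → ZMod p) → ZMod 2) :
    (Fin l × (Fin r → ZMod p) → ZMod 2) →ₗ[ZMod 2] ((Fin r → ZMod p) → ZMod 2) where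
  toFun := fun h x => ∑ q, h q * f (q.1, x + q.2)
  map_add' := by
    intro h h'
    funext x
    simp only [Pi.add_apply, add_mul, sum_add_distrib]
  map_smul' := by
    intro c h
    funext x
    simp only [Pi.smul_apply, smul_eq_mul, RingHom.id_apply, mul_sum, mul_assoc]

lemma corr_apply (f h : Fin l × (Fin r → ZMod p) → ZMod 2) (x : Fin r → ZMod p) :
    corr f h x = ∑ q, h q * f (q.1, x + q.2) := rfl

/-- the spectrum of a codeword -/
noncomputable def sp (f : Fin l × (Fin r → ZMod p) → ZMod 2) : Finset (Fin r → ZMod p) := by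
  classical
  exact univ.filter fun a => hatv D f a ≠ 0

lemma mem_sp (f : Fin l × (Fin r → ZMod p) → ZMod 2) (a : Fin r → ZMod p) :
    a ∈ sp D f ↔ hatv D f a ≠ 0 := by
  classical
  simp [sp]

lemma range_translate (f : Fin l × (Fin r → ZMod p) → ZMod 2) (j : Fin l)
    (y : Fin r → ZMod p) : (fun x => f (j, x + y)) ∈ LinearMap.range (corr f) := by
  classical
  refine ⟨fun q => if q = (j, y) then 1 else 0, ?_⟩
  funext x
  rw [corr_apply, Finset.sum_eq_single (j, y)]
  · simp
  · intro q _ hq
    simp [hq]
  · simp

lemma ch_mem (f : Fin l × (Fin r → ZMod p) → ZMod 2) {a : Fin r → ZMod p}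
    (ha : a ∈ sp D f) : (fun x => ch D a x) ∈ kspan D.K (LinearMap.range (corr f)) := by
  rw [mem_sp] at ha
  obtain ⟨j, hj⟩ := Function.ne_iff.1 ha
  simp only [Pi.zero_apply] at hj
  have h : (fun x => ch D a x) = (hatv D f a j)⁻¹ • ∑ y, ch D (-a) y •
      (fun x : Fin r → ZMod p => algebraMap (ZMod 2) D.K ((fun x => f (j, x + y)) x)) := by
    funext x
    rw [Pi.smul_apply, Finset.sum_apply]
    simp only [Pi.smul_apply, smul_eq_mul]
    have := hat_translate D (fun y => emb D f (j, y)) a x
    simp only [emb] at this
    rw [this]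
    have h2 : hat D (fun y => (algebraMap (ZMod 2) D.K) (f (j, y))) a = hatv D f a j := rfl
    rw [h2]
    field_simp
  rw [h]
  apply Submodule.smul_mem
  apply Submodule.sum_mem
  intro y _
  exact Submodule.smul_mem _ _ (kspan_of _ (range_translate f j y))

lemma hat_ch (hp2 : p ≠ 2) (a b : Fin r → ZMod p) :
    hat D (fun x => ch D b x) a = if b = a then 1 else 0 := by
  unfold hat
  have h1 : ∀ y, ch D (-a) y * ch D b y = ch D y (b - a) := by
    intro y
    rw [← ch_add_left]
    unfold ch
    rw [dotProduct_comm]
    congr 2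
    abel
  simp_rw [h1]
  rw [sum_ch D hp2]
  simp only [sub_eq_zero]

lemma sp_le_rank (hp2 : p ≠ 2) (f : Fin l × (Fin r → ZMod p) → ZMod 2) :
    (sp D f).card ≤ finrank (ZMod 2) (LinearMap.range (corr f)) := by
  classical
  obtain ⟨I, hI, hcard⟩ := exists_info (LinearMap.range (corr f))
  let Θ : (sp D f → D.K) →ₗ[D.K] (I → D.K) :=
    { toFun := fun k i => ∑ a : sp D f, k a * ch D (a : Fin r → ZMod p) (i : Fin r → ZMod p)
      map_add' := by
        intro k k'
        funext a
        simp only [Pi.add_apply, add_mul, sum_add_distrib]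
      map_smul' := by
        intro c k
        funext a
        simp only [Pi.smul_apply, smul_eq_mul, RingHom.id_apply, mul_sum, mul_assoc] }
  have hΘ : Function.Injective Θ := by
    rw [injective_iff_map_eq_zero]
    intro k hk
    have h1 : (fun x : Fin r → ZMod p => ∑ a : sp D f, k a * ch D (a : Fin r → ZMod p) x) = 0 := by
      apply kspan_info (K := D.K) _ hI
      · have h2 : (fun x : Fin r → ZMod p => ∑ a : sp D f, k a * ch D (a : Fin r → ZMod p) x) =
            ∑ a : sp D f, k a • (fun x : Fin r → ZMod p => ch D (a : Fin r → ZMod p) x) := by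
          funext x
          rw [Finset.sum_apply]
          rfl
        rw [h2]
        apply Submodule.sum_mem
        intro a _
        exact Submodule.smul_mem _ _ (ch_mem D f a.2)
      · intro i hi
        exact congrFun hk ⟨i, hi⟩
    funext b
    have h2 : hat D (fun x : Fin r → ZMod p => ∑ a : sp D f, k a * ch D (a : Fin r → ZMod p) x) b = k b := by
      have h3 : hat D (fun x : Fin r → ZMod p => ∑ a : sp D f, k a * ch D (a : Fin r → ZMod p) x) b =
          ∑ a : sp D f, k a * hat D (fun x => ch D (a : Fin r → ZMod p) x) b := by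
        simp only [hat, mul_sum]
        rw [sum_comm]
        apply sum_congr rfl
        intro i _
        apply sum_congr rfl
        intro y _
        ring
      rw [h3, Finset.sum_eq_single b]
      · rw [hat_ch D hp2, if_pos rfl, mul_one]
      · intro a _ hab
        rw [hat_ch D hp2, if_neg (fun h => hab (Subtype.ext h)), mul_zero]
      · simp
    rw [h1] at h2
    rw [← h2]
    simp [hat]
  have := LinearMap.finrank_le_finrank_of_injective hΘ
  rw [← hcard]
  simpa using this

/-- number of `h` orthogonal to `f` -/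
lemma card_ker (hp2 : p ≠ 2) (f : Fin l × (Fin r → ZMod p) → ZMod 2)
    [DecidablePred fun h : Fin l × (Fin r → ZMod p) → ZMod 2 => corr f h = 0] :
    (univ.filter fun h : Fin l × (Fin r → ZMod p) → ZMod 2 => corr f h = 0).card *
      2 ^ (sp D f).card ≤ 2 ^ (l * p ^ r) := by
  classical
  have h1 := sp_le_rank D hp2 f
  have h2 := LinearMap.finrank_range_add_finrank_ker (corr f)
  have h3 : finrank (ZMod 2) (Fin l × (Fin r → ZMod p) → ZMod 2) = l * p ^ r := by
    simp
  have h4 : (univ.filter fun h : Fin l × (Fin r → ZMod p) → ZMod 2 => corr f h = 0).card =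
      2 ^ finrank (ZMod 2) (LinearMap.ker (corr f)) := by
    have h5 := Module.card_eq_pow_finrank (K := ZMod 2) (V := LinearMap.ker (corr f))
    rw [ZMod.card] at h5
    rw [← h5, ← Fintype.card_coe]
    apply Fintype.card_congr
    refine Equiv.subtypeEquivRight ?_
    intro h
    simp
  rw [h4, ← pow_add]
  apply Nat.pow_le_pow_right (by norm_num)
  omega

end Pool.Agent.Helper479_codes
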