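import Pool.Agent.Helper479_codes.Lower2

/-!
Random invariant codes: the first moment.
-/

set_option autoImplicit false

open Finset Module Matrix

namespace Pool.Agent.Helper479_codes

variable {p : ℕ} [hp : Fact p.Prime] (D : Data p) {r l k : ℕ}

/-- the parity check map defined by `H` -/
def test (H : Fin k → (Fin l × (Fin r → ZMod p) → ZMod 2)) :
    (Fin l × (Fin r → ZMod p) → ZMod 2) →ₗ[ZMod 2] (Fin k × (Fin r → ZMod p) → ZMod 2) where
  toFun := fun f x => ∑ q, H x.1 q * f (q.1, x.2 + q.2)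
  map_add' := by
    intro h h'
    funext x
    simp only [Pi.add_apply, mul_add, sum_add_distrib]
  map_smul' := by
    intro c h
    funext x
    simp only [Pi.smul_apply, smul_eq_mul, RingHom.id_apply, mul_sum]
    apply sum_congr rfl
    intro q _
    ring

/-- the code with parity checks `H` -/
def code (H : Fin k → (Fin l × (Fin r → ZMod p) → ZMod 2)) :
    Submodule (ZMod 2) (Fin l × (Fin r → ZMod p) → ZMod 2) := LinearMap.ker (test H)

lemma mem_code (H : Fin k → (Fin l × (Fin r → ZMod p) → ZMod 2))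
    (f : Fin l × (Fin r → ZMod p) → ZMod 2) :
    f ∈ code H ↔ ∀ i, corr f (H i) = 0 := by
  unfold code
  rw [LinearMap.mem_ker]
  constructor
  · intro h i
    funext x
    exact congrFun h (i, x)
  · intro h
    funext x
    exact congrFun (h x.1) x.2

lemma code_inv (H : Fin k → (Fin l × (Fin r → ZMod p) → ZMod 2)) : Inv (code H) := by
  intro f hf y
  rw [mem_code] at hf ⊢
  intro i
  funext x
  have := congrFun (hf i) (x + y)
  rw [corr_apply] at this ⊢
  simp only [Pi.zero_apply] at this ⊢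
  rw [← this]
  apply sum_congr rfl
  intro q _
  have : x + q.2 + y = x + y + q.2 := by abel
  rw [this]

lemma code_dim (H : Fin k → (Fin l × (Fin r → ZMod p) → ZMod 2)) :
    l * p ^ r ≤ finrank (ZMod 2) (code H) + k * p ^ r := by
  have h2 := LinearMap.finrank_range_add_finrank_ker (test H)
  have h3 : finrank (ZMod 2) (Fin l × (Fin r → ZMod p) → ZMod 2) = l * p ^ r := by
    simp
  have h4 : finrank (ZMod 2) (Fin k × (Fin r → ZMod p) → ZMod 2) = k * p ^ r := by
    simp
  have h5 := Submodule.finrank_le (LinearMap.range (test H))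
  unfold code
  omega

open Classical in
lemma card_code (hp2 : p ≠ 2) (f : Fin l × (Fin r → ZMod p) → ZMod 2) :
    (univ.filter fun H : Fin k → (Fin l × (Fin r → ZMod p) → ZMod 2) => f ∈ code H).card *
      (2 ^ (sp D f).card) ^ k ≤ (2 ^ (l * p ^ r)) ^ k := by
  have h1 : (univ.filter fun H : Fin k → (Fin l × (Fin r → ZMod p) → ZMod 2) => f ∈ code H) =
      Fintype.piFinset (fun _ : Fin k =>
        univ.filter fun h : Fin l × (Fin r → ZMod p) → ZMod 2 => corr f h = 0) := by
    ext H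
    simp only [mem_filter, mem_univ, true_and, Fintype.mem_piFinset, mem_code]
  rw [h1, Fintype.card_piFinset, prod_const, card_univ, Fintype.card_fin, ← mul_pow]
  exact Nat.pow_le_pow_left (card_ker D hp2 f) k

/-- the weight is the sum of the weights on the orbits -/
lemma weight_sum {V : Type} [Fintype V] [DecidableEq V] (f : Fin l × V → ZMod 2) :
    hammingNorm f = ∑ j, hammingNorm (fun y => f (j, y)) := by
  classical
  unfold hammingNorm
  rw [card_filter, Fintype.sum_prod_type]
  apply sum_congr rfl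
  intro j _
  rw [card_filter]

open Classical in
/-- few words of small weight with spectrum in `T` -/
lemma count_low (hp2 : p ≠ 2) (T : Finset (Fin r → ZMod p)) {δ μ : ℝ} (hδ : 0 ≤ δ)
    (h0 : 0 < μ) (h1 : μ ≤ 1) :
    ((univ.filter fun f : Fin l × (Fin r → ZMod p) → ZMod 2 =>
      (∀ a ∉ T, hatv D f a = 0) ∧ (hammingNorm f : ℝ) ≤ δ * (l * (p : ℝ) ^ r)).card : ℝ) ≤
      (((1 + μ) * μ ^ (-δ)) ^ l) ^ T.card := by
  set W := spec D T with hW
  set d := finrank (ZMod 2) W with hd
  have hdT : d ≤ T.card := spec_finrank D hp2 T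
  have hN : Fintype.card (Fin r → ZMod p) = p ^ r := by simp [ZMod.card]
  have hNpos : (0 : ℝ) < (p : ℝ) ^ r := by
    have : 0 < p := (Fact.out : p.Prime).pos
    positivity
  have hB : 1 ≤ (1 + μ) * μ ^ (-δ) := by
    have : 1 ≤ μ ^ (-δ) := Real.one_le_rpow_of_pos_of_le_one_of_nonpos h0 h1 (by linarith)
    nlinarith
  have hgen := gen W (spec_translate D T) h0
  rw [← hd, hN] at hgen
  push_cast at hgen
  -- the sum over all families
  have hprod : (∑ w : (Fin r → ZMod p) → ZMod 2, (if w ∈ W then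
      μ ^ ((d : ℝ) / (p : ℝ) ^ r * hammingNorm w) else 0)) ^ l =
      ∑ φ : Fin l → ((Fin r → ZMod p) → ZMod 2), ∏ j, (if φ j ∈ W then
      μ ^ ((d : ℝ) / (p : ℝ) ^ r * hammingNorm (φ j)) else 0) := by
    have h2 := Fintype.prod_sum (fun (_ : Fin l) (w : (Fin r → ZMod p) → ZMod 2) =>
      (if w ∈ W then μ ^ ((d : ℝ) / (p : ℝ) ^ r * hammingNorm w) else 0))
    rw [← h2, prod_const, card_univ, Fintype.card_fin]
  have hcurry : ∑ φ : Fin l → ((Fin r → ZMod p) → ZMod 2), ∏ j, (if φ j ∈ W then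
      μ ^ ((d : ℝ) / (p : ℝ) ^ r * hammingNorm (φ j)) else 0) =
      ∑ f : Fin l × (Fin r → ZMod p) → ZMod 2, ∏ j, (if (fun y => f (j, y)) ∈ W then
      μ ^ ((d : ℝ) / (p : ℝ) ^ r * hammingNorm (fun y => f (j, y))) else 0) := by
    rw [← Equiv.sum_comp (Equiv.curry (Fin l) (Fin r → ZMod p) (ZMod 2))]
    rfl
  -- the terms
  have hterm : ∀ f : Fin l × (Fin r → ZMod p) → ZMod 2,
      (∀ a ∉ T, hatv D f a = 0) → (hammingNorm f : ℝ) ≤ δ * (l * (p : ℝ) ^ r) →
      μ ^ ((d : ℝ) * δ * l) ≤ ∏ j, (if (fun y => f (j, y)) ∈ W then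
      μ ^ ((d : ℝ) / (p : ℝ) ^ r * hammingNorm (fun y => f (j, y))) else 0) := by
    intro f hf hw
    have hmem : ∀ j, (fun y => f (j, y)) ∈ W := by
      intro j
      rw [hW, mem_spec]
      intro a ha
      exact congrFun (hf a ha) j
    simp_rw [if_pos (hmem _)]
    rw [← Real.rpow_sum_of_pos h0, ← mul_sum]
    have hs : ∑ j, (hammingNorm (fun y => f (j, y)) : ℝ) = hammingNorm f := by
      rw [weight_sum f]; push_cast; rfl
    rw [hs]
    apply Real.rpow_le_rpow_of_exponent_ge h0 h1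
    calc (d : ℝ) / (p : ℝ) ^ r * hammingNorm f
        ≤ (d : ℝ) / (p : ℝ) ^ r * (δ * (l * (p : ℝ) ^ r)) :=
          mul_le_mul_of_nonneg_left hw (by positivity)
      _ = (d : ℝ) * δ * l := by field_simp
  have hnonneg : ∀ f : Fin l × (Fin r → ZMod p) → ZMod 2,
      0 ≤ ∏ j, (if (fun y => f (j, y)) ∈ W then
      μ ^ ((d : ℝ) / (p : ℝ) ^ r * hammingNorm (fun y => f (j, y))) else 0) := by
    intro f
    apply prod_nonneg
    intro j _
    split_ifs
    · positivity
    · exact le_rfl
  set L := univ.filter fun f : Fin l × (Fin r → ZMod p) → ZMod 2 =>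
      (∀ a ∉ T, hatv D f a = 0) ∧ (hammingNorm f : ℝ) ≤ δ * (l * (p : ℝ) ^ r) with hL
  have hmain : (L.card : ℝ) * μ ^ ((d : ℝ) * δ * l) ≤ ((1 + μ) ^ d) ^ l := by
    calc (L.card : ℝ) * μ ^ ((d : ℝ) * δ * l) = ∑ f ∈ L, μ ^ ((d : ℝ) * δ * l) := by
          rw [sum_const, nsmul_eq_mul]
      _ ≤ ∑ f ∈ L, ∏ j, (if (fun y => f (j, y)) ∈ W then
            μ ^ ((d : ℝ) / (p : ℝ) ^ r * hammingNorm (fun y => f (j, y))) else 0) := by
          apply sum_le_sum
          intro f hf
          rw [hL, mem_filter] at hf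
          exact hterm f hf.2.1 hf.2.2
      _ ≤ ∑ f : Fin l × (Fin r → ZMod p) → ZMod 2, ∏ j, (if (fun y => f (j, y)) ∈ W then
            μ ^ ((d : ℝ) / (p : ℝ) ^ r * hammingNorm (fun y => f (j, y))) else 0) :=
          sum_le_sum_of_subset_of_nonneg (subset_univ _) fun f _ _ => hnonneg f
      _ ≤ ((1 + μ) ^ d) ^ l := by
          rw [← hcurry, ← hprod]
          apply pow_le_pow_left₀ _ hgen
          apply sum_nonneg
          intro w _
          split_ifs
          · positivity
          · exact le_rfl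
  have hinv : μ ^ ((d : ℝ) * δ * l) * ((μ ^ (-δ)) ^ l) ^ d = 1 := by
    rw [← Real.rpow_natCast (μ ^ (-δ)) l, ← Real.rpow_mul h0.le, ← Real.rpow_natCast,
      ← Real.rpow_mul h0.le, ← Real.rpow_add h0]
    have : (d : ℝ) * δ * l + -δ * l * d = 0 := by ring
    rw [this, Real.rpow_zero]
  calc (L.card : ℝ) = (L.card : ℝ) * μ ^ ((d : ℝ) * δ * l) * ((μ ^ (-δ)) ^ l) ^ d := by
        rw [mul_assoc, hinv, mul_one]
    _ ≤ ((1 + μ) ^ d) ^ l * ((μ ^ (-δ)) ^ l) ^ d :=
        mul_le_mul_of_nonneg_right hmain (by positivity)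
    _ = (((1 + μ) * μ ^ (-δ)) ^ l) ^ d := by
        rw [← pow_mul, mul_comm d l, pow_mul, ← mul_pow, ← mul_pow]
    _ ≤ (((1 + μ) * μ ^ (-δ)) ^ l) ^ T.card :=
        pow_le_pow_right₀ (one_le_pow₀ hB) hdT

/-- the first moment argument -/
lemma exists_code (hp2 : p ≠ 2) {δ μ : ℝ} (hδ : 0 ≤ δ) (h0 : 0 < μ) (h1 : μ ≤ 1)
    (hk : 2 * (p : ℝ) ^ r * ((1 + μ) * μ ^ (-δ)) ^ l ≤ 2 ^ k) :
    ∃ H : Fin k → (Fin l × (Fin r → ZMod p) → ZMod 2), ∀ f ∈ code H, f ≠ 0 →
      δ * (l * (p : ℝ) ^ r) < hammingNorm f := by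
  classical
  obtain ⟨D⟩ := exists_data p hp2
  by_contra hcon
  push Not at hcon
  set N : ℝ := (p : ℝ) ^ r with hNdef
  have hNpos : 0 < N := by
    have : 0 < p := (Fact.out : p.Prime).pos
    positivity
  set B := (1 + μ) * μ ^ (-δ) with hBdef
  have hB0 : 0 < B := by positivity
  set y : ℝ := (1 / 2 ^ k : ℝ) with hy
  have hy0 : 0 < y := by positivity
  set x : ℝ := B ^ l * y with hx
  have hx0 : 0 < x := by positivity
  have hxN : x * N ≤ 1 / 2 := by
    rw [hx, hy]
    rw [mul_one_div, div_mul_eq_mul_div, div_le_div_iff₀ (by positivity) (by norm_num)]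
    linarith
  set L := univ.filter fun f : Fin l × (Fin r → ZMod p) → ZMod 2 =>
      f ≠ 0 ∧ (hammingNorm f : ℝ) ≤ δ * (l * N) with hL
  -- union bound
  have hU : (univ : Finset (Fin k → (Fin l × (Fin r → ZMod p) → ZMod 2))) ⊆
      L.biUnion fun f => univ.filter fun H => f ∈ code H := by
    intro H _
    obtain ⟨f, hf, hne, hw⟩ := hcon H
    rw [mem_biUnion]
    exact ⟨f, by rw [hL, mem_filter]; exact ⟨mem_univ _, hne, hw⟩,
      by rw [mem_filter]; exact ⟨mem_univ _, hf⟩⟩
  have hcard := (card_le_card hU).trans card_biUnion_le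
  have htot : (univ : Finset (Fin k → (Fin l × (Fin r → ZMod p) → ZMod 2))).card =
      (2 ^ (l * p ^ r)) ^ k := by
    simp [ZMod.card]
  rw [htot] at hcard
  set M : ℝ := ((2 : ℝ) ^ (l * p ^ r)) ^ k with hM
  have hM0 : 0 < M := by positivity
  have hreal : M ≤ ∑ f ∈ L, M * y ^ (sp D f).card := by
    calc M = (((2 ^ (l * p ^ r)) ^ k : ℕ) : ℝ) := by rw [hM]; push_cast; rfl
      _ ≤ ((∑ f ∈ L, (univ.filter fun H : Fin k → (Fin l × (Fin r → ZMod p) → ZMod 2) =>
            f ∈ code H).card : ℕ) : ℝ) := by exact_mod_cast hcard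
      _ = ∑ f ∈ L, ((univ.filter fun H : Fin k → (Fin l × (Fin r → ZMod p) → ZMod 2) =>
            f ∈ code H).card : ℝ) := by push_cast; rfl
      _ ≤ ∑ f ∈ L, M * y ^ (sp D f).card := by
          apply sum_le_sum
          intro f _
          have h2 := card_code (k := k) D hp2 f
          have h3 : (((univ.filter fun H : Fin k → (Fin l × (Fin r → ZMod p) → ZMod 2) =>
            f ∈ code H).card : ℝ)) * (2 ^ (sp D f).card) ^ k ≤ M := by
            rw [hM]; exact_mod_cast h2
          have h4 : y ^ (sp D f).card * (2 ^ (sp D f).card) ^ k = 1 := by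
            rw [hy, one_div, inv_pow, ← pow_mul, ← pow_mul, mul_comm k]
            exact inv_mul_cancel₀ (by positivity)
          have h5 : (0 : ℝ) < (2 ^ (sp D f).card) ^ k := by positivity
          calc (((univ.filter fun H : Fin k → (Fin l × (Fin r → ZMod p) → ZMod 2) =>
                f ∈ code H).card : ℝ))
              = (((univ.filter fun H : Fin k → (Fin l × (Fin r → ZMod p) → ZMod 2) =>
                f ∈ code H).card : ℝ)) * (2 ^ (sp D f).card) ^ k * y ^ (sp D f).card := by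
                rw [mul_assoc, mul_comm _ (y ^ _), h4, mul_one]
            _ ≤ M * y ^ (sp D f).card := mul_le_mul_of_nonneg_right h3 (by positivity)
  have hone : 1 ≤ ∑ f ∈ L, y ^ (sp D f).card := by
    rw [← mul_sum] at hreal
    exact le_of_mul_le_mul_left (by linarith) hM0
  -- group by the spectrum
  have hgroup : ∑ f ∈ L, y ^ (sp D f).card ≤
      ∑ T ∈ (univ : Finset (Finset (Fin r → ZMod p))).erase ∅, x ^ T.card := by
    rw [← sum_fiberwise L (fun f => sp D f) (fun f => y ^ (sp D f).card)]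
    rw [← add_sum_erase univ _ (mem_univ (∅ : Finset (Fin r → ZMod p)))]
    have hz : ∑ f ∈ L with sp D f = ∅, y ^ (sp D f).card = 0 := by
      apply sum_eq_zero
      intro f hf
      exfalso
      rw [mem_filter, hL, mem_filter] at hf
      apply hf.1.2.1
      apply hatv_inj D hp2
      intro a
      by_contra hne
      have : a ∈ sp D f := (mem_sp D f a).2 hne
      rw [hf.2] at this
      simp at this
    rw [hz, zero_add]
    apply sum_le_sum
    intro T _
    have h2 : ∑ f ∈ L with sp D f = T, y ^ (sp D f).card =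
        ((L.filter fun f => sp D f = T).card : ℝ) * y ^ T.card := by
      rw [← nsmul_eq_mul, ← sum_const]
      apply sum_congr rfl
      intro f hf
      rw [(mem_filter.1 hf).2]
    rw [h2, hx, mul_pow]
    apply mul_le_mul_of_nonneg_right _ (by positivity)
    refine le_trans ?_ (count_low D (l := l) hp2 T hδ h0 h1)
    rw [← hNdef]
    norm_cast
    apply card_le_card
    intro f hf
    rw [mem_filter, hL, mem_filter] at hf
    rw [mem_filter]
    refine ⟨mem_univ _, ?_, hf.1.2.2⟩
    intro a ha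
    by_contra hne
    exact ha (hf.2 ▸ (mem_sp D f a).2 hne)
  have hall : ∑ T : Finset (Fin r → ZMod p), x ^ T.card = (x + 1) ^ (p ^ r) := by
    have h2 := Finset.sum_pow_mul_eq_add_pow x 1 (univ : Finset (Fin r → ZMod p))
    simp only [one_pow, mul_one, powerset_univ] at h2
    rw [h2, card_univ]
    simp [ZMod.card]
  have herase : ∑ T ∈ (univ : Finset (Finset (Fin r → ZMod p))).erase ∅, x ^ T.card =
      (x + 1) ^ (p ^ r) - 1 := by
    rw [← hall, ← add_sum_erase univ _ (mem_univ (∅ : Finset (Fin r → ZMod p)))]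
    simp
  have hexp : (x + 1) ^ (p ^ r) < 2 := by
    have h2 : (x + 1) ^ (p ^ r) ≤ Real.exp (x * N) := by
      calc (x + 1) ^ (p ^ r) ≤ (Real.exp x) ^ (p ^ r) :=
            pow_le_pow_left₀ (by positivity) (Real.add_one_le_exp x) _
        _ = Real.exp (x * N) := by
            rw [← Real.exp_nat_mul, hNdef]
            push_cast
            rw [mul_comm]
    have h3 : Real.exp (x * N) ≤ Real.exp (1 / 2) := Real.exp_le_exp.2 hxN
    have h4 : Real.exp (1 / 2) < 2 := by
      have h5 : Real.exp (1 / 2) ^ 2 = Real.exp 1 := by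
        rw [← Real.exp_nat_mul]; norm_num
      have h6 := Real.exp_one_lt_d9
      have h7 := Real.exp_pos (1 / 2 : ℝ)
      nlinarith
    linarith
  linarith

end Pool.Agent.Helper479_codes
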