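import Pool.Agent.Helper479_codes.Lower3
import Pool.Agent.Helper479_codes.Entropy

/-!
Existence of invariant codes on the Gilbert-Varshamov bound.
-/

set_option autoImplicit false

open Finset Module Matrix

namespace Pool.Agent.Helper479_codes

theorem lower (p : ℕ) [Fact p.Prime] (hp2 : p ≠ 2) (δ : ℝ) (h0 : 0 < δ) (h1 : δ < 1 / 2)
    (l r : ℕ) (hl : 0 < l) :
    ∃ C : Submodule (ZMod 2) (Fin l × (Fin r → ZMod p) → ZMod 2), Inv C ∧
      (1 - H2 δ - (r * Real.logb 2 p + 2) / l) * (l * (p : ℝ) ^ r) ≤ finrank (ZMod 2) C ∧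
      ∀ w ∈ C, w ≠ 0 → δ * (l * (p : ℝ) ^ r) < hammingNorm w := by
  have hpp : p.Prime := Fact.out
  have hp1 : (1 : ℝ) ≤ p := by exact_mod_cast hpp.one_lt.le
  have hN : (1 : ℝ) ≤ (p : ℝ) ^ r := one_le_pow₀ hp1
  have hl' : (0 : ℝ) < l := by exact_mod_cast hl
  have h2 : 0 < 1 - δ := by linarith
  obtain ⟨k, hk1, hk2⟩ := exists_k h0 h1 l hN
  obtain ⟨H, hH⟩ := exists_code (p := p) (r := r) (l := l) (k := k) hp2 h0.le
    (div_pos h0 h2) (by rw [div_le_one h2]; linarith) hk1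
  refine ⟨code H, code_inv H, ?_, hH⟩
  have h3 : ((l * p ^ r : ℕ) : ℝ) ≤ ((finrank (ZMod 2) (code H) + k * p ^ r : ℕ) : ℝ) := by
    exact_mod_cast code_dim H
  push_cast at h3
  have h4 : Real.logb 2 ((p : ℝ) ^ r) = r * Real.logb 2 p := Real.logb_pow _ _ _
  rw [h4] at hk2
  have h5 : (k : ℝ) * (p : ℝ) ^ r ≤ (l * H2 δ + r * Real.logb 2 p + 2) * (p : ℝ) ^ r :=
    mul_le_mul_of_nonneg_right hk2 (by positivity)
  have h6 : (1 - H2 δ - (r * Real.logb 2 p + 2) / l) * (l * (p : ℝ) ^ r) =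
      l * (p : ℝ) ^ r - (l * H2 δ + r * Real.logb 2 p + 2) * (p : ℝ) ^ r := by
    field_simp
    ring
  rw [h6]
  linarith

end Pool.Agent.Helper479_codes
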