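import Pool.Agent.Helper479_codes.Fourier
import Pool.Agent.Helper999.Sq3.Growth

/-!
Invariant binary codes of positive rate and positive relative distance need many orbits.
-/

set_option autoImplicit false

open Finset Module Matrix

namespace Pool.Agent.Helper479_codes

variable {p : ℕ} [hp : Fact p.Prime] (D : Data p) {r l : ℕ}

/-- the algebra map on functions -/
def emb {X : Type} (c : X → ZMod 2) : X → D.K := fun x => algebraMap (ZMod 2) D.K (c x)

lemma emb_inj {X : Type} {c : X → ZMod 2} (h : emb D c = 0) : c = 0 := by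
  funext x
  have := congrFun h x
  simp only [emb, Pi.zero_apply] at this
  have hinj := (algebraMap (ZMod 2) D.K).injective
  exact hinj (by rw [this]; simp)

/-- the Fourier coefficient of a codeword, one component for every orbit -/
def hatv (c : Fin l × (Fin r → ZMod p) → ZMod 2) (a : Fin r → ZMod p) : Fin l → D.K :=
  fun j => hat D (fun y => emb D c (j, y)) a

lemma hatv_inj (hp2 : p ≠ 2) {c : Fin l × (Fin r → ZMod p) → ZMod 2}
    (h : ∀ a, hatv D c a = 0) : c = 0 := by
  apply emb_inj D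
  funext x
  obtain ⟨j, y⟩ := x
  have h1 : (fun y => emb D c (j, y)) = 0 :=
    hat_eq_zero D hp2 _ fun a => congrFun (h a) j
  exact congrFun h1 y

lemma hatv_sub (c c' : Fin l × (Fin r → ZMod p) → ZMod 2) (a : Fin r → ZMod p) :
    hatv D (c - c') a = hatv D c a - hatv D c' a := by
  funext j
  simp only [hatv, hat, emb, Pi.sub_apply, map_sub, mul_sub, sum_sub_distrib]

/-- invariance under the translations -/
def Inv (C : Submodule (ZMod 2) (Fin l × (Fin r → ZMod p) → ZMod 2)) : Prop :=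
  ∀ c ∈ C, ∀ y : Fin r → ZMod p, (fun x => c (x.1, x.2 + y)) ∈ C

/-- the isotypic components of a codeword are in the span -/
lemma comp_mem {C : Submodule (ZMod 2) (Fin l × (Fin r → ZMod p) → ZMod 2)} (hC : Inv C)
    {c : Fin l × (Fin r → ZMod p) → ZMod 2} (hc : c ∈ C) (a : Fin r → ZMod p) :
    (fun x : Fin l × (Fin r → ZMod p) => hatv D c a x.1 * ch D a x.2) ∈ kspan D.K C := by
  have h : (fun x : Fin l × (Fin r → ZMod p) => hatv D c a x.1 * ch D a x.2) =
      ∑ y, ch D (-a) y • (fun x : Fin l × (Fin r → ZMod p) =>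
        algebraMap (ZMod 2) D.K ((fun x => c (x.1, x.2 + y)) x)) := by
    funext x
    rw [Finset.sum_apply]
    simp only [Pi.smul_apply, smul_eq_mul]
    have := hat_translate D (fun y => emb D c (x.1, y)) a x.2
    simp only [emb] at this
    rw [this, mul_comm]
    rfl
  rw [h]
  apply Submodule.sum_mem
  intro y _
  exact Submodule.smul_mem _ _ (kspan_of C (hC c hc y))

/-- the frequencies of a code -/
noncomputable def freq (C : Submodule (ZMod 2) (Fin l × (Fin r → ZMod p) → ZMod 2)) :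
    Finset (Fin r → ZMod p) := by
  classical
  exact univ.filter fun a => ∃ c ∈ C, hatv D c a ≠ 0

lemma mem_freq (C : Submodule (ZMod 2) (Fin l × (Fin r → ZMod p) → ZMod 2))
    (a : Fin r → ZMod p) : a ∈ freq D C ↔ ∃ c ∈ C, hatv D c a ≠ 0 := by
  classical
  simp [freq]

lemma finrank_le_freq (hp2 : p ≠ 2)
    (C : Submodule (ZMod 2) (Fin l × (Fin r → ZMod p) → ZMod 2)) :
    finrank (ZMod 2) C ≤ Fintype.card D.K * (l * (freq D C).card) := by
  classical
  let g : C → (freq D C → Fin l → D.K) := fun c a => hatv D c.1 a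
  have hg : Function.Injective g := by
    intro c c' h
    apply Subtype.ext
    rw [← sub_eq_zero]
    apply hatv_inj D hp2
    intro a
    by_cases ha : a ∈ freq D C
    · rw [hatv_sub, sub_eq_zero]
      exact congrFun h ⟨a, ha⟩
    · by_contra hne
      exact ha ((mem_freq D C a).2 ⟨c.1 - c'.1, C.sub_mem c.2 c'.2, hne⟩)
  have h1 := Fintype.card_le_of_injective g hg
  have h2 : Fintype.card C = 2 ^ finrank (ZMod 2) C := by
    have := Module.card_eq_pow_finrank (K := ZMod 2) (V := C)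
    rw [this, ZMod.card]
  have h3 : Fintype.card (freq D C → Fin l → D.K) =
      Fintype.card D.K ^ (l * (freq D C).card) := by
    rw [Fintype.card_fun, Fintype.card_fun, Fintype.card_fin, Fintype.card_coe, pow_mul]
  rw [h2, h3] at h1
  have h4 : Fintype.card D.K ^ (l * (freq D C).card) ≤
      2 ^ (Fintype.card D.K * (l * (freq D C).card)) := by
    rw [pow_mul 2]
    exact Nat.pow_le_pow_left (Nat.lt_two_pow_self).le _
  exact (Nat.pow_le_pow_iff_right (by norm_num)).1 (h1.trans h4)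

/-! ### Counting points by the values of independent linear forms -/

lemma exists_dot {k : ℕ} {d : Fin k → (Fin r → ZMod p)} (hd : LinearIndependent (ZMod p) d)
    (t : Fin k → ZMod p) : ∃ x : Fin r → ZMod p, ∀ i, d i ⬝ᵥ x = t i := by
  classical
  -- a functional with the prescribed values
  obtain ⟨g, hg⟩ := LinearMap.exists_extend ((Basis.span hd).constr (ZMod p) t)
  have hφ : ∀ i, g (d i) = t i := by
    intro i
    have h1 := LinearMap.congr_fun hg (Basis.span hd i)
    rw [Basis.constr_basis] at h1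
    rw [← h1, LinearMap.comp_apply, Submodule.subtype_apply, Basis.span_apply]
  refine ⟨fun i => g (fun j => if i = j then 1 else 0), fun i => ?_⟩
  rw [← hφ i, LinearMap.pi_apply_eq_sum_univ g (d i)]
  rfl

lemma card_forms {k : ℕ} {d : Fin k → (Fin r → ZMod p)} (hd : LinearIndependent (ZMod p) d)
    (S : Finset (Fin k → ZMod p)) :
    (univ.filter fun x : Fin r → ZMod p => (fun i => d i ⬝ᵥ x) ∈ S).card * p ^ k =
      S.card * p ^ r := by
  classical
  let f0 := (univ.filter fun x : Fin r → ZMod p => (fun i => d i ⬝ᵥ x) = 0).card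
  have hfib : ∀ t : Fin k → ZMod p,
      (univ.filter fun x : Fin r → ZMod p => (fun i => d i ⬝ᵥ x) = t).card = f0 := by
    intro t
    obtain ⟨x0, hx0⟩ := exists_dot hd t
    apply card_bij' (fun x _ => x - x0) (fun x _ => x + x0)
    · intro x hx
      simp only [mem_filter, mem_univ, true_and] at hx ⊢
      funext i
      have h3 : d i ⬝ᵥ x = t i := congrFun hx i
      rw [dotProduct_sub, h3, hx0 i, sub_self]; rfl
    · intro x hx
      simp only [mem_filter, mem_univ, true_and] at hx ⊢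
      funext i
      have h3 : d i ⬝ᵥ x = 0 := congrFun hx i
      rw [dotProduct_add, h3, hx0 i, zero_add]
    · intro x _; simp
    · intro x _; simp
  have h1 : ∀ S : Finset (Fin k → ZMod p),
      (univ.filter fun x : Fin r → ZMod p => (fun i => d i ⬝ᵥ x) ∈ S).card = S.card * f0 := by
    intro S
    have hmaps : Set.MapsTo (fun x : Fin r → ZMod p => fun i => d i ⬝ᵥ x)
        (univ.filter fun x : Fin r → ZMod p => (fun i => d i ⬝ᵥ x) ∈ S : Finset _)
        (S : Set (Fin k → ZMod p)) := fun x hx => by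
      have := (mem_filter.1 (mem_coe.1 hx)).2
      exact mem_coe.2 this
    have h0 := card_eq_sum_card_fiberwise hmaps
    rw [h0]
    rw [sum_congr rfl (g := fun _ => f0)]
    · simp
    · intro t ht
      rw [← hfib t]
      congr 1
      ext x
      simp only [mem_filter, mem_univ, true_and]
      constructor
      · exact fun h => h.2
      · exact fun h => ⟨by rw [h]; exact ht, h⟩
  have h2 := h1 univ
  simp only [mem_univ, filter_true, card_univ, Fintype.card_fun, ZMod.card, Fintype.card_fin] at h2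
  rw [h1 S, h2]
  ring

/-! ### A grid of frequencies gives a codeword of small weight -/

lemma psi_eq_one {t : ZMod p} (h : D.ψ t = 1) : t = 0 := by
  by_contra ht
  apply D.prim ht
  ext x
  rw [AddChar.mulShift_apply, AddChar.one_apply]
  have : t * x = x.val • t := by
    rw [nsmul_eq_mul, ZMod.natCast_zmod_val, mul_comm]
  rw [this, AddChar.map_nsmul_eq_pow, h, one_pow]

lemma kappa_ne (hp2 : p ≠ 2) : D.ψ 1 + D.ψ (-1) ≠ 0 := by
  intro h
  have h1 : D.ψ 1 = D.ψ (-1) := by
    have := add_self_eq D (D.ψ (-1))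
    exact add_right_cancel (h.trans this.symm)
  have h2 : D.ψ (1 + 1) = 1 := by
    rw [AddChar.map_add_eq_mul]
    nth_rewrite 2 [h1]
    rw [← AddChar.map_add_eq_mul, add_neg_cancel, AddChar.map_zero_eq_one]
  have h3 := psi_eq_one D h2
  have h4 : ((2 : ℕ) : ZMod p) = 0 := by
    push_cast; rw [← h3]; norm_num
  rw [ZMod.natCast_eq_zero_iff] at h4
  have hpp : p.Prime := Fact.out
  exact hp2 ((Nat.prime_dvd_prime_iff_eq hpp Nat.prime_two).1 h4)

lemma one_ne_neg_one (hp2 : p ≠ 2) : (1 : ZMod p) ≠ -1 := by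
  intro h
  have hpp : p.Prime := Fact.out
  have h4 : ((2 : ℕ) : ZMod p) = 0 := by
    push_cast
    have : (2 : ZMod p) = 1 + 1 := by norm_num
    rw [this]
    nth_rewrite 2 [h]
    ring
  rw [ZMod.natCast_eq_zero_iff] at h4
  exact hp2 ((Nat.prime_dvd_prime_iff_eq hpp Nat.prime_two).1 h4)

open Helper999.Sq3 in
lemma low_word (hp2 : p ≠ 2) {C : Submodule (ZMod 2) (Fin l × (Fin r → ZMod p) → ZMod 2)}
    {v : Fin l → D.K} (hv : v ≠ 0) {S : Set (Fin r → ZMod p)}
    (hS : ∀ a ∈ S, (fun x : Fin l × (Fin r → ZMod p) => v x.1 * ch D a x.2) ∈ kspan D.K C)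
    {k : ℕ} (hgrid : HasGrid p k S) :
    ∃ c ∈ C, c ≠ 0 ∧ hammingNorm c * p ^ k ≤ l * ((p - 2) ^ k * p ^ r) := by
  classical
  obtain ⟨x0, d, hd, hg⟩ := hgrid
  obtain ⟨j0, hj0⟩ := Function.ne_iff.1 hv
  set κ : D.K := D.ψ 1 + D.ψ (-1) with hκ
  let w : ZMod p → D.K := fun s => if s = 0 then κ else 1
  let T : Finset (ZMod p) := {0, 1, -1}
  have h01 : (0 : ZMod p) ≠ 1 := zero_ne_one
  have h0m : (0 : ZMod p) ≠ -1 := by
    intro h; apply h01; rw [← neg_neg (1 : ZMod p), ← h, neg_zero]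
  have h1m := one_ne_neg_one (p := p) hp2
  let F : Fin l × (Fin r → ZMod p) → D.K := fun x => v x.1 * (ch D x0 x.2 *
    ∏ i, (κ + D.ψ (d i ⬝ᵥ x.2) + D.ψ (-(d i ⬝ᵥ x.2))))
  have hexp : ∀ x : Fin r → ZMod p, ∏ i, (κ + D.ψ (d i ⬝ᵥ x) + D.ψ (-(d i ⬝ᵥ x))) =
      ∑ s ∈ Fintype.piFinset (fun _ : Fin k => T), (∏ i, w (s i)) *
        ch D (∑ i, s i • d i) x := by
    intro x
    have h1 : ∀ i, κ + D.ψ (d i ⬝ᵥ x) + D.ψ (-(d i ⬝ᵥ x)) =
        ∑ s ∈ T, w s * D.ψ (s * (d i ⬝ᵥ x)) := by
      intro i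
      rw [sum_insert (by simp [h01, h0m]), sum_insert (by simpa using h1m), sum_singleton]
      simp only [w, if_true, zero_mul, AddChar.map_zero_eq_one, mul_one, if_neg h01.symm,
        if_neg h0m.symm, one_mul, neg_mul]
      rw [add_assoc]
    simp_rw [h1]
    rw [Finset.prod_univ_sum]
    apply sum_congr rfl
    intro s _
    rw [prod_mul_distrib]
    congr 1
    unfold ch
    rw [sum_dotProduct, map_sum_prod D D.ψ]
    apply prod_congr rfl
    intro i _
    rw [smul_dotProduct, smul_eq_mul]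
  have hF : F ∈ kspan D.K C := by
    have : F = ∑ s ∈ Fintype.piFinset (fun _ : Fin k => T), (∏ i, w (s i)) •
        (fun x : Fin l × (Fin r → ZMod p) => v x.1 * ch D (x0 + ∑ i, s i • d i) x.2) := by
      funext x
      rw [Finset.sum_apply]
      simp only [F, hexp, Pi.smul_apply, smul_eq_mul, mul_sum]
      apply sum_congr rfl
      intro s _
      rw [ch_add_left]
      ring
    rw [this]
    apply Submodule.sum_mem
    intro s hs
    apply Submodule.smul_mem
    apply hS
    apply hg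
    intro i
    have := Fintype.mem_piFinset.1 hs i
    simpa [T] using this
  have hF0 : F (j0, 0) ≠ 0 := by
    simp only [F, dotProduct_zero, neg_zero, AddChar.map_zero_eq_one, ch_zero_right, one_mul]
    apply mul_ne_zero hj0
    rw [prod_const]
    apply pow_ne_zero
    rw [add_assoc, add_self_eq D 1, add_zero]
    exact kappa_ne D hp2
  obtain ⟨c, hc, hc0, hsupp⟩ := exists_codeword C hF hF0
  refine ⟨c, hc, fun h => hc0 (by rw [h]; rfl), ?_⟩
  -- the support
  let S' : Finset (Fin k → ZMod p) := Fintype.piFinset fun _ => univ \ {1, -1}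
  have hS' : S'.card = (p - 2) ^ k := by
    simp only [S', Fintype.card_piFinset, prod_const, card_univ, Fintype.card_fin]
    congr 1
    rw [card_sdiff_of_subset (subset_univ _), card_univ, ZMod.card, card_pair h1m]
  have hsub : (univ.filter fun x => c x ≠ 0) ⊆ univ ×ˢ
      (univ.filter fun x : Fin r → ZMod p => (fun i => d i ⬝ᵥ x) ∈ S') := by
    intro x hx
    have h1 := hsupp x (mem_filter.1 hx).2
    simp only [mem_product, mem_univ, mem_filter, true_and, S', Fintype.mem_piFinset, mem_sdiff,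
      mem_insert, mem_singleton]
    intro i hcon
    apply h1
    simp only [F]
    have h2 : ∏ i, (κ + D.ψ (d i ⬝ᵥ x.2) + D.ψ (-(d i ⬝ᵥ x.2))) = 0 := by
      apply prod_eq_zero (mem_univ i)
      rcases hcon with h | h
      · rw [h, add_assoc, ← hκ, add_self_eq]
      · rw [h, neg_neg, add_assoc, add_comm (D.ψ (-1)), ← hκ, add_self_eq]
    rw [h2, mul_zero, mul_zero]
  have h3 : hammingNorm c ≤ l * (univ.filter fun x : Fin r → ZMod p =>
      (fun i => d i ⬝ᵥ x) ∈ S').card := by
    have := card_le_card hsub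
    rw [card_product, card_univ, Fintype.card_fin] at this
    exact this
  calc hammingNorm c * p ^ k ≤ (l * (univ.filter fun x : Fin r → ZMod p =>
      (fun i => d i ⬝ᵥ x) ∈ S').card) * p ^ k := Nat.mul_le_mul_right _ h3
    _ = l * ((p - 2) ^ k * p ^ r) := by
      rw [mul_assoc, card_forms hd S', hS']

/-! ### The lower bound for the number of orbits -/

open Helper999.Sq3 in
lemma dense_type (hp2 : p ≠ 2) (hl : 0 < l) {R : ℝ} (hR : 0 < R)
    {C : Submodule (ZMod 2) (Fin l × (Fin r → ZMod p) → ZMod 2)} (hC : Inv C)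
    (hdim : R * (l * (p : ℝ) ^ r) ≤ finrank (ZMod 2) C) :
    ∃ (v : Fin l → D.K) (S : Finset (Fin r → ZMod p)), v ≠ 0 ∧
      (∀ a ∈ S, (fun x : Fin l × (Fin r → ZMod p) => v x.1 * ch D a x.2) ∈ kspan D.K C) ∧
      R * (p : ℝ) ^ r ≤ (Fintype.card D.K : ℝ) * (Fintype.card D.K : ℝ) ^ l * S.card := by
  classical
  have hpp : p.Prime := Fact.out
  have hl' : (0 : ℝ) < l := by exact_mod_cast hl
  have hp0 : (0 : ℝ) < p := by exact_mod_cast hpp.pos
  have hq : (0 : ℝ) < Fintype.card D.K := by exact_mod_cast Fintype.card_pos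
  have h1 : R * (p : ℝ) ^ r ≤ Fintype.card D.K * (freq D C).card := by
    have h2 : (finrank (ZMod 2) C : ℝ) ≤ Fintype.card D.K * (l * (freq D C).card) := by
      exact_mod_cast finrank_le_freq D hp2 C
    have h3 : l * (R * (p : ℝ) ^ r) ≤ l * (Fintype.card D.K * (freq D C).card) := by
      nlinarith
    exact le_of_mul_le_mul_left h3 hl'
  have hch : ∀ a : Fin r → ZMod p, ∃ v : Fin l → D.K, (a ∈ freq D C → v ≠ 0) ∧
      (fun x : Fin l × (Fin r → ZMod p) => v x.1 * ch D a x.2) ∈ kspan D.K C := by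
    intro a
    by_cases ha : a ∈ freq D C
    · obtain ⟨c, hc, hne⟩ := (mem_freq D C a).1 ha
      exact ⟨hatv D c a, fun _ => hne, comp_mem D hC hc a⟩
    · refine ⟨0, fun h => absurd h ha, ?_⟩
      have : (fun x : Fin l × (Fin r → ZMod p) => (0 : Fin l → D.K) x.1 * ch D a x.2) = 0 := by
        funext x; simp
      rw [this]; exact Submodule.zero_mem _
  choose v hv1 hv2 using hch
  have hpig := Finset.exists_le_card_fiber_of_nsmul_le_card_of_maps_to (s := freq D C)
    (t := (univ : Finset (Fin l → D.K))) (f := v)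
    (b := ((freq D C).card : ℝ) / (Fintype.card D.K : ℝ) ^ l)
    (fun _ _ => mem_univ _) ⟨0, mem_univ _⟩ (by
      rw [card_univ, Fintype.card_fun, Fintype.card_fin, nsmul_eq_mul]
      push_cast
      rw [mul_div_cancel₀ _ (pow_pos hq l).ne'])
  obtain ⟨v0, _, hv0⟩ := hpig
  set S := (freq D C).filter fun a => v a = v0 with hS
  rw [div_le_iff₀ (pow_pos hq l)] at hv0
  have hmain : R * (p : ℝ) ^ r ≤
      (Fintype.card D.K : ℝ) * (Fintype.card D.K : ℝ) ^ l * S.card := by
    calc R * (p : ℝ) ^ r ≤ Fintype.card D.K * (freq D C).card := h1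
      _ ≤ Fintype.card D.K * (S.card * (Fintype.card D.K : ℝ) ^ l) :=
        mul_le_mul_of_nonneg_left hv0 hq.le
      _ = _ := by ring
  refine ⟨v0, S, ?_, ?_, hmain⟩
  · have hpos : 0 < S.card := by
      by_contra h
      have : S.card = 0 := by omega
      rw [this] at hmain
      have : 0 < R * (p : ℝ) ^ r := by positivity
      simp at hmain
      linarith
    obtain ⟨a, ha⟩ := card_pos.1 hpos
    rw [hS, mem_filter] at ha
    rw [← ha.2]
    exact hv1 a ha.1
  · intro a ha
    rw [hS, mem_filter] at ha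
    rw [← ha.2]
    exact hv2 a

open Helper999.Sq3 in
theorem upper (p : ℕ) [Fact p.Prime] (hp2 : p ≠ 2) (R δ : ℝ) (hR : 0 < R) (hδ : 0 < δ) :
    ∃ c : ℝ, 0 < c ∧ ∀ l r : ℕ, 0 < l →
      ∀ C : Submodule (ZMod 2) (Fin l × (Fin r → ZMod p) → ZMod 2), Inv C →
        R * (l * (p : ℝ) ^ r) ≤ finrank (ZMod 2) C →
        (∀ w ∈ C, w ≠ 0 → δ * (l * (p : ℝ) ^ r) ≤ hammingNorm w) → c * r ≤ l := by
  classical
  obtain ⟨D⟩ := exists_data p hp2
  have hpp : p.Prime := Fact.out
  have hp3 : 3 ≤ p := by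
    have := hpp.two_le
    omega
  have hp0 : (0 : ℝ) < p := by exact_mod_cast hpp.pos
  have hpR : (3 : ℝ) ≤ p := by exact_mod_cast hp3
  -- the dimension of the grid
  obtain ⟨k, hk⟩ : ∃ k : ℕ, (((p : ℝ) - 2) / p) ^ k < δ :=
    exists_pow_lt_of_lt_one hδ (by rw [div_lt_one hp0]; linarith)
  obtain ⟨M, hM⟩ := grid_of_dense p hp2 (capP p hp2) (fun n m c A hc => supersatP p n m c A hc) k
  set q := Fintype.card D.K with hq
  have hqpos : 0 < q := Fintype.card_pos
  obtain ⟨b, hb⟩ : ∃ b : ℕ, (q : ℝ) / R < (p : ℝ) ^ b :=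
    pow_unbounded_of_one_lt _ (by linarith)
  refine ⟨1 / ((M : ℝ) * (b + q + 1) + 1), by positivity, ?_⟩
  intro l r hl C hC hdim hdist
  have hl' : (1 : ℝ) ≤ l := by exact_mod_cast hl
  obtain ⟨v, S, hv, hS, hcard⟩ := dense_type D hp2 hl hR hC hdim
  -- no large grid
  have hno : ¬ HasGrid p k (S : Set (Fin r → ZMod p)) := by
    intro hg
    obtain ⟨c, hc, hc0, hwt⟩ := low_word D hp2 hv (S := (S : Set (Fin r → ZMod p)))
      (fun a ha => hS a (mem_coe.1 ha)) hg
    have h1 := hdist c hc hc0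
    have h2 : (hammingNorm c : ℝ) * (p : ℝ) ^ k ≤ l * (((p : ℝ) - 2) ^ k * (p : ℝ) ^ r) := by
      have h3 : ((hammingNorm c * p ^ k : ℕ) : ℝ) ≤ ((l * ((p - 2) ^ k * p ^ r) : ℕ) : ℝ) := by
        exact_mod_cast hwt
      push_cast [Nat.cast_sub (by omega : 2 ≤ p)] at h3
      exact h3
    have hpk : (0 : ℝ) < (p : ℝ) ^ k := by positivity
    have hpr : (0 : ℝ) < (p : ℝ) ^ r := by positivity
    rw [div_pow, div_lt_iff₀ hpk] at hk
    have h4 : δ * (l * (p : ℝ) ^ r) * (p : ℝ) ^ k ≤ l * (((p : ℝ) - 2) ^ k * (p : ℝ) ^ r) :=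
      (mul_le_mul_of_nonneg_right h1 hpk.le).trans h2
    have h5 : l * (p : ℝ) ^ r * (((p : ℝ) - 2) ^ k) < l * (p : ℝ) ^ r * (δ * (p : ℝ) ^ k) :=
      mul_lt_mul_of_pos_left hk (by positivity)
    nlinarith
  -- the density of `S`
  have hdens : p ^ r ≤ p ^ (b + q * l) * S.card := by
    have h1 : (p : ℝ) ^ r ≤ (p : ℝ) ^ (b + q * l) * S.card := by
      have h2 : (p : ℝ) ^ r ≤ (q : ℝ) / R * ((q : ℝ) ^ l * S.card) := by
        rw [div_mul_eq_mul_div, le_div_iff₀ hR]
        nlinarith
      have h3 : (q : ℝ) ^ l ≤ (p : ℝ) ^ (q * l) := by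
        rw [pow_mul]
        apply pow_le_pow_left₀ (by positivity)
        have h4 : q < 2 ^ q := Nat.lt_two_pow_self
        have h5 : (q : ℝ) ≤ (2 : ℝ) ^ q := by exact_mod_cast h4.le
        exact h5.trans (pow_le_pow_left₀ (by norm_num) (by linarith) _)
      calc (p : ℝ) ^ r ≤ (q : ℝ) / R * ((q : ℝ) ^ l * S.card) := h2
        _ ≤ (p : ℝ) ^ b * ((p : ℝ) ^ (q * l) * S.card) := by
          apply mul_le_mul hb.le _ (by positivity) (by positivity)
          exact mul_le_mul_of_nonneg_right h3 (by positivity)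
        _ = _ := by rw [pow_add]; ring
    exact_mod_cast h1
  have hr : r ≤ M * (b + q * l + 1) := by
    by_contra h
    exact hno (hM (b + q * l) r S hdens (by omega))
  have hr' : (r : ℝ) ≤ M * (b + q * l + 1) := by exact_mod_cast hr
  rw [one_div, inv_mul_le_iff₀ (by positivity)]
  have hM0 : (0 : ℝ) ≤ M := by positivity
  have hb0 : (0 : ℝ) ≤ b := by positivity
  have hq0 : (0 : ℝ) ≤ q := by positivity
  have h6 : (M : ℝ) * (b + q * l + 1) ≤ M * (b + q + 1) * l := by
    have : (b + q * l + 1 : ℝ) ≤ (b + q + 1) * l := by nlinarith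
    nlinarith
  nlinarith

end Pool.Agent.Helper479_codes
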